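import Pool.Agent.H53.AL.Baer

/-!
# Elements of prime order inverted by an involution (helper85's claim)

`E` a conjugation invariant set of elements with square one, `p` an odd prime, `D` the set of all
`x` with `x^p = 1` which are inverted by some `z ∈ E` and commute with `w x w` for all `w ∈ E`.
Then `⟨D⟩` is a normal `p`-subgroup.
-/

set_option autoImplicit false

namespace Pool.Agent.H53.AL

open Subgroup

/-- the set `D` -/
def DD {M : Type*} [Group M] (p : ℕ) (E : Set M) : Set M :=
  {x | x ^ p = 1 ∧ (∃ z ∈ E, z * x * z = x⁻¹) ∧ ∀ w ∈ E, Commute x (w * x * w)}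

theorem dd_conj {M : Type*} [Group M] (p : ℕ) (E : Set M)
    (hEc : ∀ w ∈ E, ∀ g : M, g * w * g⁻¹ ∈ E) : ∀ x ∈ DD p E, ∀ g : M, g * x * g⁻¹ ∈ DD p E := by
  rintro x ⟨h1, ⟨z, hz, hzx⟩, h3⟩ g
  refine ⟨?_, ⟨g * z * g⁻¹, hEc z hz g, ?_⟩, ?_⟩
  · rw [conj_pow, h1]
    group
  · have : g * z * g⁻¹ * (g * x * g⁻¹) * (g * z * g⁻¹) = g * (z * x * z) * g⁻¹ := by group
    rw [this, hzx]
    group
  · intro w hw
    have h4 := h3 (g⁻¹ * w * g) (by simpa using hEc w hw g⁻¹)
    have h5 : g * x * g⁻¹ = MulAut.conj g x := rfl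
    have h6 : w * (g * x * g⁻¹) * w = MulAut.conj g ((g⁻¹ * w * g) * x * (g⁻¹ * w * g)) := by
      change _ = g * ((g⁻¹ * w * g) * x * (g⁻¹ * w * g)) * g⁻¹
      group
    rw [h6, h5]
    exact h4.map (MulAut.conj g).toMonoidHom

private theorem pair {M : Type*} [Group M] [Finite M] (p : ℕ) [Fact p.Prime] (hp2 : p ≠ 2)
    (E : Set M) (hE : ∀ w ∈ E, w * w = 1) (hEc : ∀ w ∈ E, ∀ g : M, g * w * g⁻¹ ∈ E) :
    ∀ n : ℕ, ∀ x ∈ DD p E, ∀ y ∈ DD p E, Nat.card (closure {x, y} : Subgroup M) ≤ n →
      IsPGroup p (closure {x, y} : Subgroup M) := by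
  classical
  intro n
  induction n using Nat.strong_induction_on with
  | _ n ih =>
  intro x hx y hy hn
  obtain ⟨hx1, ⟨z, hz, hzx⟩, hx3⟩ := hx
  have hzz := hE z hz
  have hzi : z⁻¹ = z := inv_eq_of_mul_eq_one_left hzz
  obtain ⟨u, hu⟩ : ∃ u : M, u = x ^ 2 := ⟨_, rfl⟩
  -- `x` is a power of `u`
  have hodd : Odd p := (Fact.out : p.Prime).odd_of_ne_two hp2
  obtain ⟨r, hr⟩ := hodd
  have hxu : x = u ^ (r + 1) := by
    rw [hu, ← pow_mul]
    have : 2 * (r + 1) = p + 1 := by omega
    rw [this, pow_succ, hx1, one_mul]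
  set S : Set M := Set.range (fun m : ℤ => u ^ m * y * (u ^ m)⁻¹) with hS
  have hyS : y ∈ S := ⟨0, by simp⟩
  have hSD : ∀ s ∈ S, s ∈ DD p E := by
    rintro s ⟨m, rfl⟩
    exact dd_conj p E hEc y hy (u ^ m)
  -- `y` commutes with `z s z`
  have hzp : ∀ m : ℤ, z * x ^ m * z = (x ^ m)⁻¹ := by
    intro m
    have h1 : z * x * z⁻¹ = x⁻¹ := by rw [hzi, hzx]
    have h2 : z * x ^ m * z⁻¹ = (x⁻¹) ^ m := by rw [← h1, conj_zpow]
    rw [hzi] at h2
    rw [h2, inv_zpow]
  have hcomm : ∀ s ∈ S, Commute y (z * s * z) := by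
    rintro s ⟨m, rfl⟩
    have hw : z * u ^ m ∈ E := by
      have h1 : (x ^ m)⁻¹ * z * (x ^ m)⁻¹⁻¹ = z * u ^ m := by
        have h2 := hzp m
        have h3 : (x ^ m)⁻¹ * z = z * x ^ m := by
          rw [← h2, mul_assoc, hzz, mul_one]
        have h4 : x ^ m * x ^ m = u ^ m := by
          rw [hu, ← zpow_natCast, ← zpow_mul, ← zpow_add]
          congr 1
          push_cast
          ring
        rw [h3, inv_inv, mul_assoc, h4]
      rw [← h1]
      exact hEc z hz _
    have h5 := hy.2.2 _ hw
    have h6 : z * u ^ m = (u ^ m)⁻¹ * z := by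
      have h7 := hE _ hw
      have h8 : (z * u ^ m)⁻¹ = z * u ^ m := inv_eq_of_mul_eq_one_left h7
      rw [← h8, mul_inv_rev, hzi]
    have h9 : z * u ^ m * y * (z * u ^ m) = z * (u ^ m * y * (u ^ m)⁻¹) * z := by
      nth_rewrite 2 [h6]
      simp only [mul_assoc]
    rw [h9] at h5
    exact h5
  have hcl : ∀ s ∈ closure S, Commute y (z * s * z) := by
    have h1 : closure S ≤ (centralizer {y}).comap (MulAut.conj z).toMonoidHom := by
      rw [closure_le]
      intro s hs
      change z * s * z⁻¹ ∈ centralizer {y}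
      rw [hzi, mem_centralizer_singleton_iff]
      exact (hcomm s hs).eq.symm
    intro s hs
    have h2 : z * s * z⁻¹ ∈ centralizer {y} := h1 hs
    rw [hzi, mem_centralizer_singleton_iff] at h2
    exact h2.symm
  -- `E₁ = ⟨S⟩` is a `p`-group
  have hE1 : IsPGroup p (closure S : Subgroup M) := by
    by_cases hxE : x ∈ closure S
    · have h1 := hcl x hxE
      rw [hzx] at h1
      have h2 : Commute y x := by simpa using h1.inv_right
      have h3 : closure S ≤ zpowers y := by
        rw [closure_le]
        rintro s ⟨m, rfl⟩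
        have h4 : Commute (u ^ m) y := by
          rw [hu]
          exact ((h2.symm.pow_left 2).zpow_left m)
        change u ^ m * y * (u ^ m)⁻¹ ∈ zpowers y
        rw [h4.eq, mul_inv_cancel_right]
        exact mem_zpowers y
      have h5 : IsPGroup p (zpowers y) := by
        apply IsPGroup.of_card_dvd_pow (n := 1)
        rw [Nat.card_zpowers, pow_one]
        exact orderOf_dvd_of_pow_eq_one hy.1
      exact h5.to_le h3
    · have hle : closure S ≤ closure {x, y} := by
        rw [closure_le]
        rintro s ⟨m, rfl⟩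
        have hxm : x ∈ closure {x, y} := Subgroup.subset_closure (by simp)
        have hym : y ∈ closure {x, y} := Subgroup.subset_closure (by simp)
        have hum : u ^ m ∈ closure {x, y} := by
          rw [hu]
          exact zpow_mem (pow_mem hxm 2) m
        exact mul_mem (mul_mem hum hym) (inv_mem hum)
      have hlt : Nat.card (closure S : Subgroup M) < Nat.card (closure {x, y} : Subgroup M) := by
        have h1 : ((closure S : Subgroup M) : Set M).ncard <
            ((closure {x, y} : Subgroup M) : Set M).ncard := by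
          apply Set.ncard_lt_ncard _ (Set.toFinite _)
          refine ⟨hle, fun h => hxE (h (Subgroup.subset_closure (by simp)))⟩
        exact h1
      have hcard0 : 0 < n := lt_of_lt_of_le (lt_of_le_of_lt (Nat.zero_le _) hlt) hn
      set D1 : Set (closure S : Subgroup M) := {v | (v : M) ∈ DD p E} with hD1
      have h2 : IsPGroup p (closure D1) := by
        refine baer_set p D1 ?_ ?_
        · intro v hv g
          exact dd_conj p E hEc _ hv g
        · intro v hv w hw
          have h3 : closure {(v : M), (w : M)} ≤ closure S := by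
            rw [closure_le]
            rintro t (rfl | rfl)
            · exact v.2
            · exact w.2
          have h4 : IsPGroup p (closure {(v : M), (w : M)} : Subgroup M) := by
            refine ih (n - 1) (by omega) _ hv _ hw ?_
            have h5 : Nat.card (closure {(v : M), (w : M)} : Subgroup M) ≤
                Nat.card (closure S : Subgroup M) := Subgroup.card_le_of_le h3
            omega
          have h6 : (closure {v, w}).map (closure S).subtype = closure {(v : M), (w : M)} := by
            rw [MonoidHom.map_closure, Set.image_pair]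
            rfl
          rw [← h6] at h4
          have h7 := h4.comap_of_injective (closure S).subtype (subtype_injective _)
          rwa [comap_map_eq_self_of_injective (subtype_injective _)] at h7
      have h8 := h2.map (closure S).subtype
      refine h8.to_le ?_
      rw [closure_le]
      intro s hs
      exact ⟨⟨s, Subgroup.subset_closure hs⟩, Subgroup.subset_closure (hSD s hs), rfl⟩
  -- `x` normalises `E₁`
  have huN : u ∈ normalizer ((closure S : Subgroup M) : Set M) := by
    rw [mem_normalizer_iff]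
    have key : ∀ e : ℤ, ∀ s ∈ closure S, u ^ e * s * (u ^ e)⁻¹ ∈ closure S := by
      intro e s hs
      have h1 : closure S ≤ (closure S).comap (MulAut.conj (u ^ e)).toMonoidHom := by
        rw [closure_le]
        rintro s ⟨m, rfl⟩
        apply Subgroup.subset_closure
        refine ⟨e + m, ?_⟩
        change u ^ (e + m) * y * (u ^ (e + m))⁻¹ = u ^ e * (u ^ m * y * (u ^ m)⁻¹) * (u ^ e)⁻¹
        rw [zpow_add]
        group
      exact h1 hs
    intro s
    constructor
    · intro hs
      simpa using key 1 s hs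
    · intro hs
      have h2 := key (-1) _ hs
      have h3 : u ^ (-1 : ℤ) * (u * s * u⁻¹) * (u ^ (-1 : ℤ))⁻¹ = s := by group
      rwa [h3] at h2
  have hxN : zpowers x ≤ normalizer ((closure S : Subgroup M) : Set M) := by
    rw [zpowers_le, hxu]
    exact pow_mem huN _
  have hzx' : IsPGroup p (zpowers x) := by
    apply IsPGroup.of_card_dvd_pow (n := 1)
    rw [Nat.card_zpowers, pow_one]
    exact orderOf_dvd_of_pow_eq_one hx1
  refine (hzx'.to_sup_of_normal_right' hE1 hxN).to_le ?_
  rw [closure_le]
  rintro t (rfl | rfl)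
  · exact mem_sup_left (mem_zpowers _)
  · exact mem_sup_right (Subgroup.subset_closure hyS)

/-- helper85's claim: the elements of order `p` (odd prime) which are inverted by some `z ∈ E` and
commute with `w x w` for all `w ∈ E` generate a `p`-group -/
theorem claim {M : Type*} [Group M] [Finite M] (p : ℕ) [Fact p.Prime] (hp2 : p ≠ 2)
    (E : Set M) (hE : ∀ w ∈ E, w * w = 1) (hEc : ∀ w ∈ E, ∀ g : M, g * w * g⁻¹ ∈ E) :
    IsPGroup p (closure (DD p E)) :=
  baer_set p (DD p E) (dd_conj p E hEc)
    (fun x hx y hy => pair p hp2 E hE hEc _ x hx y hy le_rfl)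

/-- an element `b` of odd prime order, inverted by `z ∈ E`, which commutes with `w b w` for all
`w ∈ E`, lies in a normal `p`-subgroup -/
theorem claim_normal {M : Type*} [Group M] [Finite M] (p : ℕ) [Fact p.Prime] (hp2 : p ≠ 2)
    (E : Set M) (hE : ∀ w ∈ E, w * w = 1) (hEc : ∀ w ∈ E, ∀ g : M, g * w * g⁻¹ ∈ E)
    (b z : M) (hb : b ^ p = 1) (hz : z ∈ E) (hzb : z * b * z = b⁻¹)
    (hw : ∀ w ∈ E, Commute b (w * b * w)) :
    ∃ N : Subgroup M, N.Normal ∧ IsPGroup p N ∧ b ∈ N := by
  refine ⟨closure (DD p E), ?_, claim p hp2 E hE hEc, Subgroup.subset_closure ⟨hb, ⟨z, hz, hzb⟩, hw⟩⟩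
  refine ⟨fun n hn g => ?_⟩
  have h1 : closure (DD p E) ≤ (closure (DD p E)).comap (MulAut.conj g).toMonoidHom := by
    rw [closure_le]
    intro s hs
    exact Subgroup.subset_closure (dd_conj p E hEc s hs g)
  exact h1 hn

end Pool.Agent.H53.AL
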