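import Mathlib

/-!
# Baer's theorem (the Alperin-Lyons argument)

If `b` and each of its conjugates generate a `p`-group, then the normal closure of `b` is a
`p`-group.  Let `K` be the class of `b`.  If two Sylow `p`-subgroups `P`, `Q` have
`K ∩ P ≠ K ∩ Q`, choose them with `K ∩ P ∩ Q` as large as possible and put `D = ⟨K ∩ P ∩ Q⟩`.
The normalizer condition gives `x ∈ K ∩ P` and `y ∈ K ∩ Q`, not in `D`, which normalise `D`;
`⟨D, x, y⟩` is a `p`-group and lies in a Sylow subgroup `R` with larger intersections.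
-/

set_option autoImplicit false

namespace Pool.Agent.H53.AL

open Subgroup

variable {M : Type*} [Group M]

private theorem conj_closure {S : Set M} {D : Subgroup M} {x : M}
    (h : ∀ s ∈ S, x * s * x⁻¹ ∈ D) : ∀ d ∈ closure S, x * d * x⁻¹ ∈ D := by
  have h1 : closure S ≤ D.comap (MulAut.conj x).toMonoidHom := by
    rw [closure_le]
    intro s hs
    simpa using h s hs
  intro d hd
  simpa using h1 hd

/-- an element of the normal set `K` in the `p`-group `P`, outside `D`, normalising `D` -/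
private theorem exists_norm [Finite M] (p : ℕ) [Fact p.Prime] (K : Set M)
    (hK : ∀ x ∈ K, ∀ g : M, g * x * g⁻¹ ∈ K) (P : Subgroup M) (hP : IsPGroup p P) (S : Set M)
    (hSK : S ⊆ K) (hSP : closure S ≤ P) (hne : ∃ x ∈ K, x ∈ P ∧ x ∉ closure S) :
    ∃ x ∈ K, x ∈ P ∧ x ∉ closure S ∧ x ∈ normalizer (closure S : Set M) := by
  classical
  obtain ⟨A, hA⟩ := (Set.toFinite {A : Subgroup M | closure S ≤ A ∧ A ≤ P ∧
    ∀ x ∈ K, x ∈ A → x ∈ closure S}).exists_maximal ⟨closure S, le_rfl, hSP, fun x _ h => h⟩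
  obtain ⟨hSA, hAP, hAK⟩ := hA.prop
  have hAne : A ≠ P := by
    rintro rfl
    obtain ⟨x, hxK, hxP, hx⟩ := hne
    exact hx (hAK x hxK hxP)
  -- the normalizer condition in `P`
  have : Group.IsNilpotent P := hP.isNilpotent
  have hlt : A.subgroupOf P < ⊤ := by
    rw [lt_top_iff_ne_top]
    intro h
    rw [subgroupOf_eq_top] at h
    exact hAne (le_antisymm hAP h)
  have hn := Group.normalizerCondition_of_isNilpotent (G := P) (A.subgroupOf P) hlt
  obtain ⟨g, hg, hgA⟩ := SetLike.exists_of_lt hn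
  have hg1 : (g : M) ∉ A := fun h => hgA (mem_subgroupOf.2 h)
  have hg2 : (g : M) ∈ normalizer (A : Set M) := by
    rw [mem_normalizer_iff]
    rw [mem_normalizer_iff] at hg
    intro h
    constructor
    · intro hh
      have := (hg ⟨h, hAP hh⟩).1 (mem_subgroupOf.2 hh)
      simpa [mem_subgroupOf] using this
    · intro hh
      have h3 : h ∈ P := by
        have h4 := P.mul_mem (P.mul_mem (P.inv_mem g.2) (hAP hh)) g.2
        have h5 : (g : M)⁻¹ * ((g : M) * h * (g : M)⁻¹) * (g : M) = h := by group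
        rwa [h5] at h4
      have := (hg ⟨h, h3⟩).2 (by rw [mem_subgroupOf]; simpa using hh)
      simpa [mem_subgroupOf] using this
  set B : Subgroup M := normalizer (A : Set M) ⊓ P with hB
  have hAB : A ≤ B := le_inf le_normalizer hAP
  have hBnot : ¬ (closure S ≤ B ∧ B ≤ P ∧ ∀ x ∈ K, x ∈ B → x ∈ closure S) := by
    intro h
    exact hg1 (hA.le_of_ge h hAB ⟨hg2, g.2⟩)
  have hex : ∃ x ∈ K, x ∈ B ∧ x ∉ closure S := by
    by_contra hcon
    push Not at hcon
    exact hBnot ⟨hSA.trans hAB, inf_le_right, hcon⟩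
  obtain ⟨x, hxK, hxB, hxS⟩ := hex
  refine ⟨x, hxK, hxB.2, hxS, ?_⟩
  have hxA := mem_normalizer_iff.1 hxB.1
  have key : ∀ s ∈ S, x * s * x⁻¹ ∈ closure S := by
    intro s hs
    exact hAK _ (hK s (hSK hs) x) ((hxA s).1 (hSA (subset_closure hs)))
  have key' : ∀ s ∈ S, x⁻¹ * s * x⁻¹⁻¹ ∈ closure S := by
    intro s hs
    refine hAK _ (hK s (hSK hs) x⁻¹) ((hxA _).2 ?_)
    have h5 : x * (x⁻¹ * s * x⁻¹⁻¹) * x⁻¹ = s := by group
    rw [h5]
    exact hSA (subset_closure hs)
  rw [mem_normalizer_iff]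
  intro h
  constructor
  · intro hh
    exact conj_closure key h hh
  · intro hh
    have h6 := conj_closure key' _ hh
    have h7 : x⁻¹ * (x * h * x⁻¹) * x⁻¹⁻¹ = h := by group
    rwa [h7] at h6

/-- all Sylow subgroups contain the same elements of `K` -/
private theorem same [Finite M] (p : ℕ) [Fact p.Prime] (K : Set M)
    (hK : ∀ x ∈ K, ∀ g : M, g * x * g⁻¹ ∈ K)
    (hp : ∀ x ∈ K, ∀ y ∈ K, IsPGroup p (closure {x, y})) :
    ∀ n : ℕ, ∀ P Q : Sylow p M, Nat.card M ≤ n + (K ∩ (P ∩ Q : Set M)).ncard →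
      K ∩ P = K ∩ Q := by
  classical
  intro n
  induction n using Nat.strong_induction_on with
  | _ n ih =>
  intro P Q hn
  by_contra hne
  set S : Set M := K ∩ (P ∩ Q : Set M) with hS
  have hSP : closure S ≤ (P : Subgroup M) := by
    rw [closure_le]
    exact fun x hx => hx.2.1
  have hSQ : closure S ≤ (Q : Subgroup M) := by
    rw [closure_le]
    exact fun x hx => hx.2.2
  have hmem : ∀ x ∈ K, x ∈ closure S → x ∈ S := fun x hx h => ⟨hx, hSP h, hSQ h⟩
  -- the two intersections have the same number of elements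
  have hcard : ∀ P Q : Sylow p M, (K ∩ (P : Set M)).ncard ≤ (K ∩ (Q : Set M)).ncard := by
    intro P Q
    obtain ⟨g, hg⟩ := MulAction.exists_smul_eq M P Q
    refine Set.ncard_le_ncard_of_injOn (fun x => g * x * g⁻¹) ?_ ?_ (Set.toFinite _)
    · rintro x ⟨hx1, hx2⟩
      refine ⟨hK x hx1 g, ?_⟩
      rw [← hg]
      exact Set.smul_mem_smul_set (a := MulAut.conj g) hx2
    · intro x _ y _ hxy
      simpa using hxy
  have hnP : ∃ x ∈ K, x ∈ (P : Subgroup M) ∧ x ∉ closure S := by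
    by_contra hcon
    push Not at hcon
    apply hne
    refine Set.eq_of_subset_of_ncard_le ?_ (hcard Q P) (Set.toFinite _)
    intro x hx
    exact ⟨hx.1, hSQ (hcon x hx.1 hx.2)⟩
  have hnQ : ∃ x ∈ K, x ∈ (Q : Subgroup M) ∧ x ∉ closure S := by
    by_contra hcon
    push Not at hcon
    apply hne
    refine (Set.eq_of_subset_of_ncard_le ?_ (hcard P Q) (Set.toFinite _)).symm
    intro x hx
    exact ⟨hx.1, hSP (hcon x hx.1 hx.2)⟩
  obtain ⟨x, hxK, hxP, hxS, hxN⟩ := exists_norm p K hK P P.isPGroup' S (fun z hz => hz.1) hSP hnP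
  obtain ⟨y, hyK, hyQ, hyS, hyN⟩ := exists_norm p K hK Q Q.isPGroup' S (fun z hz => hz.1) hSQ hnQ
  have hE : closure {x, y} ≤ normalizer (closure S : Set M) := by
    rw [closure_le]
    rintro z (rfl | rfl)
    · exact hxN
    · exact hyN
  have hG : IsPGroup p (closure {x, y} ⊔ closure S : Subgroup M) :=
    (hp x hxK y hyK).to_sup_of_normal_right' (P.isPGroup'.to_le hSP) hE
  obtain ⟨R, hR⟩ := hG.exists_le_sylow
  have hSR : closure S ≤ (R : Subgroup M) := le_sup_right.trans hR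
  have hxR : x ∈ (R : Subgroup M) := hR (le_sup_left (a := closure {x, y})
    (subset_closure (by simp)))
  have hyR : y ∈ (R : Subgroup M) := hR (le_sup_left (a := closure {x, y})
    (subset_closure (by simp)))
  have hcardM : ∀ T : Set M, T.ncard ≤ Nat.card M := fun T => Set.ncard_le_card T
  -- both pairs `(P, R)`, `(Q, R)` have a larger intersection
  have big : ∀ (P' : Sylow p M), closure S ≤ (P' : Subgroup M) → ∀ z ∈ K, z ∈ (P' : Subgroup M) →
      z ∈ (R : Subgroup M) → z ∉ closure S → K ∩ P' = K ∩ R := by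
    intro P' hP' z hzK hzP hzR hzS
    have hlt : S.ncard < (K ∩ (P' ∩ R : Set M)).ncard := by
      apply Set.ncard_lt_ncard _ (Set.toFinite _)
      refine ⟨fun w hw => ⟨hw.1, hP' (subset_closure hw), hSR (subset_closure hw)⟩, ?_⟩
      intro h
      exact hzS (subset_closure (h ⟨hzK, hzP, hzR⟩))
    have h0 : 0 < n := by
      by_contra h0
      have h1 : n = 0 := by omega
      have h2 := hcardM (K ∩ (P' ∩ R : Set M))
      omega
    exact ih (n - 1) (by omega) P' R (by omega)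
  exact hne ((big P hSP x hxK hxP hxR hxS).trans (big Q hSQ y hyK hyQ hyR hyS).symm)

/-- Baer's theorem -/
theorem baer_pairs {M : Type*} [Group M] [Finite M] (p : ℕ) [Fact p.Prime] (b : M)
    (h : ∀ g : M, IsPGroup p (closure {b, g * b * g⁻¹})) :
    IsPGroup p (normalClosure {b}) := by
  classical
  set K : Set M := {x | ∃ g : M, x = g * b * g⁻¹} with hKdef
  have hbK : b ∈ K := ⟨1, by simp⟩
  have hK : ∀ x ∈ K, ∀ g : M, g * x * g⁻¹ ∈ K := by
    rintro x ⟨u, rfl⟩ g
    exact ⟨g * u, by group⟩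
  have hp : ∀ x ∈ K, ∀ y ∈ K, IsPGroup p (closure {x, y}) := by
    rintro x ⟨u, rfl⟩ y ⟨v, rfl⟩
    have h1 : closure {u * b * u⁻¹, v * b * v⁻¹} =
        (closure {b, (u⁻¹ * v) * b * (u⁻¹ * v)⁻¹}).map (MulAut.conj u).toMonoidHom := by
      have e1 : (MulAut.conj u).toMonoidHom b = u * b * u⁻¹ := by simp
      have e2 : (MulAut.conj u).toMonoidHom ((u⁻¹ * v) * b * (u⁻¹ * v)⁻¹) = v * b * v⁻¹ := by
        change u * ((u⁻¹ * v) * b * (u⁻¹ * v)⁻¹) * u⁻¹ = v * b * v⁻¹
        group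
      rw [MonoidHom.map_closure, Set.image_pair, e1, e2]
    rw [h1]
    exact (h (u⁻¹ * v)).map _
  have hb : IsPGroup p (closure {b}) :=
    (h 1).to_le (closure_mono (by simp))
  obtain ⟨P, hP⟩ := hb.exists_le_sylow
  have hbP : b ∈ (P : Subgroup M) := hP (subset_closure rfl)
  have hall : ∀ g : M, g * b * g⁻¹ ∈ (P : Subgroup M) := by
    intro g
    have h1 := same p K hK hp (Nat.card M) (g • P) P (by omega)
    have h2 : g * b * g⁻¹ ∈ K ∩ ((g • P : Sylow p M) : Set M) := by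
      refine ⟨⟨g, rfl⟩, ?_⟩
      exact Set.smul_mem_smul_set (a := MulAut.conj g) hbP
    rw [h1] at h2
    exact h2.2
  refine P.isPGroup'.to_le ?_
  rw [normalClosure, closure_le]
  intro x hx
  rw [Group.mem_conjugatesOfSet_iff] at hx
  obtain ⟨c, hc, hcx⟩ := hx
  rw [Set.mem_singleton_iff] at hc
  subst hc
  obtain ⟨g, hg⟩ := isConj_iff.1 hcx
  rw [← hg]
  exact hall g

/-- Baer's theorem for a normal set -/
theorem baer_set {M : Type*} [Group M] [Finite M] (p : ℕ) [Fact p.Prime] (D : Set M)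
    (hD : ∀ x ∈ D, ∀ g : M, g * x * g⁻¹ ∈ D)
    (hp : ∀ x ∈ D, ∀ y ∈ D, IsPGroup p (closure {x, y})) : IsPGroup p (closure D) := by
  classical
  obtain ⟨P⟩ : Nonempty (Sylow p M) := inferInstance
  refine P.isPGroup'.to_le ?_
  rw [closure_le]
  intro x hx
  have hx1 : IsPGroup p (closure {x}) := (hp x hx x hx).to_le (closure_mono (by simp))
  obtain ⟨Q, hQ⟩ := hx1.exists_le_sylow
  have h1 := same p D hD hp (Nat.card M) Q P (by omega)
  have h2 : x ∈ D ∩ (Q : Set M) := ⟨hx, hQ (subset_closure rfl)⟩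
  rw [h1] at h2
  exact h2.2

end Pool.Agent.H53.AL
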